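import Pool.Agent.WIR.StmtsB

/-!
# WIR, row DCS (helper98)
-/

set_option autoImplicit false

namespace Pool.Agent.WIR.H98

open Pool.Agent.WIR

theorem kh_zero (B l : ℕ) : Kh B (fun _ => 0) l = 0 := by
  unfold Kh
  exact Finset.sum_eq_zero fun x _ => by rw [mul_zero]

theorem dcs (dvb : DvbStmt) (wst : WstStmt) (gwh : GwhStmt) (trs : TrsStmt) : DcsStmt := by
  intro d A hd0 hd1
  set κ : ℝ := d / (16 * (A + 1)) with hκ
  have hA0 : (0 : ℝ) ≤ A := Nat.cast_nonneg A
  have hA1 : (0 : ℝ) < 16 * ((A : ℝ) + 1) := by linarith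
  have hκ0 : 0 < κ := div_pos hd0 hA1
  have hκ1 : κ ≤ 1 / 16 := by
    rw [hκ, div_le_iff₀ hA1]
    nlinarith
  have hκA : (A : ℝ) * κ ≤ d / 16 := by
    rw [hκ, mul_div_assoc', div_le_div_iff₀ hA1 (by norm_num)]
    nlinarith
  refine ⟨⌈64 * ((A : ℝ) + 1) / d⌉₊ + 64, by omega, ?_⟩
  intro h b Q t B j l m C hT hm hC ih hcase
  have hmR : 64 * ((A : ℝ) + 1) / d ≤ m := by
    have h1 : 64 * ((A : ℝ) + 1) / d ≤ (⌈64 * ((A : ℝ) + 1) / d⌉₊ : ℝ) := Nat.le_ceil _
    have h2 : ((⌈64 * ((A : ℝ) + 1) / d⌉₊ : ℕ) : ℝ) ≤ m := by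
      exact_mod_cast (by omega : ⌈64 * ((A : ℝ) + 1) / d⌉₊ ≤ m)
    linarith
  have hm64 : 64 ≤ m := by omega
  have hm64' : (64 : ℝ) ≤ m := by exact_mod_cast hm64
  have hmd : 64 * ((A : ℝ) + 1) ≤ m * d := by
    rwa [div_le_iff₀ hd0] at hmR
  have hκm : 4 ≤ κ * m := by
    rw [hκ, div_mul_eq_mul_div, le_div_iff₀ hA1]
    nlinarith
  have hm0 : (0 : ℝ) < m := by linarith
  obtain ⟨hb1, hb2, hb3, _⟩ := dvb B d b hd0.le hd1
  rcases hcase with hw | ⟨q, hq, htri, hs⟩
  · -- white
    have hY : 0 ≤ C / (m : ℝ) ^ A := div_nonneg hC (pow_nonneg hm0.le _)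
    have h1 := wst B d b (m - 1) j l (C / (m : ℝ) ^ A) (fun _ => 0) hd0.le hd1 hY
      (fun _ => le_rfl) hw (by
        intro x' _
        rw [add_zero]
        have h2 := ih (m - 1) x' (by omega)
        have e1 : j + (m - (m - 1)) = j + 1 := by omega
        have e2 : (((m - 1 : ℕ) : ℝ) + 1) = m := by
          rw [Nat.cast_sub (by omega)]
          push_cast
          ring
        rw [e1, e2] at h2
        exact h2)
    rw [kh_zero, add_zero, (by omega : m - 1 + 1 = m)] at h1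
    refine h1.trans ?_
    rw [mul_div_assoc', div_le_div_iff₀ (pow_pos hm0 _) (pow_pos (by linarith) _)]
    -- (1 - d/4) (m+1)^A ≤ m^A
    have h3 : ((m : ℝ) + 1) ^ A ≤ m ^ A * Real.exp (d / 8) := by
      have h4 : ((m : ℝ) + 1) = m * (1 + 1 / m) := by field_simp
      have h5 : (1 + 1 / (m : ℝ)) ^ A ≤ Real.exp (d / 8) := by
        have h6 : 1 + 1 / (m : ℝ) ≤ Real.exp (1 / m) := by
          have := Real.add_one_le_exp (1 / (m : ℝ))
          linarith
        calc (1 + 1 / (m : ℝ)) ^ A ≤ Real.exp (1 / m) ^ A :=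
              pow_le_pow_left₀ (by positivity) h6 A
          _ = Real.exp (A * (1 / m)) := by rw [← Real.exp_nat_mul]
          _ ≤ Real.exp (d / 8) := by
              apply Real.exp_le_exp.mpr
              rw [mul_one_div, div_le_div_iff₀ hm0 (by norm_num)]
              nlinarith
      rw [h4, mul_pow]
      exact mul_le_mul_of_nonneg_left h5 (pow_nonneg hm0.le _)
    have h7 : (1 - d / 4) * Real.exp (d / 8) ≤ 1 := by
      have h8 : 1 - d / 4 ≤ Real.exp (-(d / 4)) := by
        have := Real.add_one_le_exp (-(d / 4))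
        linarith
      calc (1 - d / 4) * Real.exp (d / 8) ≤ Real.exp (-(d / 4)) * Real.exp (d / 8) :=
            mul_le_mul_of_nonneg_right h8 (Real.exp_pos _).le
        _ = Real.exp (-(d / 8)) := by rw [← Real.exp_add]; ring_nf
        _ ≤ 1 := Real.exp_le_one_iff.mpr (by linarith)
    have h9 : (1 - d / 4) * ((m : ℝ) + 1) ^ A ≤ m ^ A := by
      calc (1 - d / 4) * ((m : ℝ) + 1) ^ A ≤ (1 - d / 4) * (m ^ A * Real.exp (d / 8)) :=
            mul_le_mul_of_nonneg_left h3 (by linarith)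
        _ = m ^ A * ((1 - d / 4) * Real.exp (d / 8)) := by ring
        _ ≤ m ^ A * 1 := mul_le_mul_of_nonneg_left h7 (pow_nonneg hm0.le _)
        _ = m ^ A := mul_one _
    calc (1 - d / 4) * C * ((m : ℝ) + 1) ^ A = C * ((1 - d / 4) * ((m : ℝ) + 1) ^ A) := by ring
      _ ≤ C * m ^ A := mul_le_mul_of_nonneg_left h9 hC
  · -- small triangle
    have hlq : l + 3 ≤ q.2 := htri.2.1
    set s := q.2 - l with hsdef
    have hqs : q.2 = l + s := by omega
    have hsm : (s : ℝ) ≤ κ * m := hs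
    have hs16 : 16 * s ≤ m := by
      have : (16 * s : ℝ) ≤ m := by nlinarith
      exact_mod_cast this
    set n1 := m - s / 2 - 1 with hn1
    have hn1' : n1 + s / 2 + 1 = m := by omega
    have hn1R : (1 - κ) * ((m : ℝ) + 1) ≤ n1 := by
      have h1 : (n1 : ℝ) + ((s / 2 : ℕ) : ℝ) + 1 = m := by exact_mod_cast hn1'
      have h2 : ((s / 2 : ℕ) : ℝ) ≤ (s : ℝ) / 2 := Nat.cast_div_le
      nlinarith
    have hn1pos : 0 < n1 := by omega
    have hn1p : (0 : ℝ) < n1 := by exact_mod_cast hn1pos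
    have hY : 0 ≤ C / (n1 : ℝ) ^ A := div_nonneg hC (pow_nonneg hn1p.le _)
    have hle : ∀ n : ℕ, n1 ≤ n → C / (n : ℝ) ^ A ≤ C / (n1 : ℝ) ^ A := by
      intro n hn
      exact div_le_div_of_nonneg_left hC (pow_pos hn1p _)
        (pow_le_pow_left₀ hn1p.le (by exact_mod_cast hn) _)
    have hD : ∀ k x, k + 1 ≤ m → n1 ≤ m - k → Dv B d b (m - (k + 1)) (j + (k + 1)) x ≤
        C / (n1 : ℝ) ^ A := by
      intro k x hk hk2
      have h1 := ih (m - (k + 1)) x (by omega)
      have e1 : j + (m - (m - (k + 1))) = j + (k + 1) := by omega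
      have e2 : (((m - (k + 1) : ℕ) : ℝ) + 1) = ((m - k : ℕ) : ℝ) := by
        have : m - (k + 1) + 1 = m - k := by omega
        exact_mod_cast this
      rw [e1, e2] at h1
      exact h1.trans (hle _ hk2)
    have h1 := trs B s (fun k x => Dv B d b (m - k) (j + k) x) l (C / (n1 : ℝ) ^ A) (d / 4)
      hY (by linarith) (by linarith) (fun k x hx => hb2 _ _ _ hx) (fun k x => (hb1 _ _ _).2)
      (by
        intro k x hk
        have h2 := hb3 (m - (k + 1)) (j + k) x
        have e1 : m - (k + 1) + 1 = m - k := by omega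
        rw [e1] at h2
        exact h2)
      (by
        intro k o hk ho
        exact hD k _ (by omega) (by omega))
      (by
        intro k o hk ho hk2 ho9
        have hnb := gwh h b Q t hT q j l k o hq htri (by omega) ho ho9
        rw [hqs] at hnb
        have h3 := wst B d b (m - (k + 2)) (j + (k + 1)) (l + s + o) (C / (n1 : ℝ) ^ A)
          (fun _ => 0) hd0.le hd1 hY (fun _ => le_rfl)
          (by
            have e1 : j + (k + 1) + 1 = j + k + 2 := by omega
            rw [e1]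
            exact hnb)
          (by
            intro x' _
            rw [add_zero]
            have h4 := hD (k + 1) x' (by omega) (by omega)
            exact h4)
        have e2 : m - (k + 2) + 1 = m - (k + 1) := by omega
        rw [kh_zero, add_zero, e2] at h3
        exact h3)
    have e3 : Dv B d b (m - 0) (j + 0) l = Dv B d b m j l := rfl
    change Dv B d b (m - 0) (j + 0) l ≤ _ at h1
    rw [e3] at h1
    refine h1.trans ?_
    rw [mul_div_assoc', div_le_div_iff₀ (pow_pos hn1p _) (pow_pos (by linarith) _)]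
    have h5 : (1 - d / 8) ≤ (1 - κ) ^ A := by
      have h6 := one_add_mul_le_pow (a := -κ) (by linarith) A
      have h7 : 1 + (A : ℝ) * -κ = 1 - A * κ := by ring
      rw [h7] at h6
      have h8 : (1 + -κ) = 1 - κ := by ring
      rw [h8] at h6
      linarith
    have h9 : (1 - d / 8) * ((m : ℝ) + 1) ^ A ≤ (n1 : ℝ) ^ A := by
      calc (1 - d / 8) * ((m : ℝ) + 1) ^ A ≤ (1 - κ) ^ A * ((m : ℝ) + 1) ^ A :=
            mul_le_mul_of_nonneg_right h5 (pow_nonneg (by linarith) _)
        _ = ((1 - κ) * ((m : ℝ) + 1)) ^ A := (mul_pow _ _ _).symm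
        _ ≤ (n1 : ℝ) ^ A := pow_le_pow_left₀ (mul_nonneg (by linarith) (by linarith)) hn1R _
    have h10 : (1 - d / 4 / 2) = 1 - d / 8 := by ring
    rw [h10]
    calc (1 - d / 8) * C * ((m : ℝ) + 1) ^ A = C * ((1 - d / 8) * ((m : ℝ) + 1) ^ A) := by ring
      _ ≤ C * (n1 : ℝ) ^ A := mul_le_mul_of_nonneg_left h9 hC

end Pool.Agent.WIR.H98
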